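import Mathlib
import Pool.Agent.Q92.Gaifman

/-!
# MP_d359f0_an: a poor free filter which is not generated by a statistical measure
-/

namespace Pool.Agent.Results.MP_d359f0_an.PoorNotMeasure

open Q92.Gaifman

/-- **MP_d359f0_an, Q1 (disproof, in ZFC).** There is a free filter on `ℕ` which is poor but is
not generated by any statistical measure. -/
theorem result : ∃ F : Filter ℕ, IsFree F ∧ Poor F ∧
    ∀ μ : Set ℕ → ℝ, IsStatMeasure μ → ¬ GeneratedBy F μ :=
  ⟨FG, FG_free, FG_poor, FG_not_generated⟩

end Pool.Agent.Results.MP_d359f0_an.PoorNotMeasure
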